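import Mathlib
import Pool.Agent.Helper65.SL.Base

/-! Module MPT of project SL: positivity at one point of the manifold. -/

set_option maxSynthPendingDepth 3
set_option linter.unusedSectionVars false
set_option linter.deprecated false
set_option linter.unusedVariables false

namespace Pool.Agent.Helper38.SL

open Filter Topology
open scoped ContDiff Manifold
open Pool.Agent.Helper65.SL Pool.Agent.Helper23.Ric

theorem gram_change {m : ℕ} {E : Type*} [NormedAddCommGroup E] [NormedSpace ℝ E]
    (d : Module.Basis (Fin m) ℝ E) (e : Fin m → E) (B : E →L[ℝ] E →L[ℝ] ℝ) :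
    (Matrix.of fun i j => B (e i) (e j)).det =
      (Matrix.of fun i j => d.repr (e i) j).det ^ 2 * (Matrix.of fun i j => B (d i) (d j)).det := by
  have h : (Matrix.of fun i j => B (e i) (e j)) =
      (Matrix.of fun i j => d.repr (e i) j) * (Matrix.of fun i j => B (d i) (d j)) *
        (Matrix.of fun i j => d.repr (e i) j).transpose := by
    ext i j
    rw [Matrix.mul_apply]
    simp only [Matrix.mul_apply, Matrix.of_apply, Matrix.transpose_apply]
    conv_lhs => rw [← d.sum_repr (e i), ← d.sum_repr (e j)]
    simp only [map_sum, map_smul, ContinuousLinearMap.sum_apply, ContinuousLinearMap.smul_apply,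
      smul_eq_mul]
    refine Finset.sum_congr rfl fun l _ => ?_
    rw [Finset.sum_mul, Finset.mul_sum]
    exact Finset.sum_congr rfl fun k _ => by ring
  rw [h, Matrix.det_mul, Matrix.det_mul, Matrix.det_transpose]
  ring

section manifold

variable {E₁ E₂ : Type*} [NormedAddCommGroup E₁] [NormedSpace ℝ E₁] [FiniteDimensional ℝ E₁]
  [NormedAddCommGroup E₂] [NormedSpace ℝ E₂] [FiniteDimensional ℝ E₂]
  {H₁ H₂ : Type*} [TopologicalSpace H₁] [TopologicalSpace H₂]
  {I : ModelWithCorners ℝ E₁ H₁} {J : ModelWithCorners ℝ E₂ H₂} [I.Boundaryless] [J.Boundaryless]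
  {M N : Type*} [TopologicalSpace M] [TopologicalSpace N]
  [ChartedSpace H₁ M] [IsManifold I 1 M] [ChartedSpace H₂ N] [IsManifold J 1 N]

theorem split_chart (g : RMetric (I.prod J) (M × N)) (ho : OrthSlices g) (x : M) (y : N) :
    SplitAt (inChart (I.prod J) g.form (x, y)) (extChartAt I x x) (extChartAt J y y) := by
  refine ⟨?_, ?_⟩
  · have := goodAt_chart g (x, y)
    rwa [prod_self] at this
  · filter_upwards [target_prod_eventually (I := I) (J := J) x y] with p hp u v
    obtain ⟨w, z⟩ := p
    rw [inChart_prod_apply g hp.1 hp.2]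
    simp only [map_zero]
    exact ho _ _ _ _

theorem mpt {m : ℕ} (hm : 2 ≤ m) (hdim : m = Module.finrank ℝ E₂)
    (b : Module.Basis (Fin 2) ℝ E₁)
    (loc : ∀ (G : E₁ × E₂ → (E₁ × E₂) →L[ℝ] (E₁ × E₂) →L[ℝ] ℝ) (w₀ : E₁) (z₀ : E₂),
      SplitAt G w₀ z₀ → ∀ e : Fin m → E₂, IsOrtho (blockW G w₀ z₀) e →
      IsLocalMin (fun w => (Matrix.of fun i j => G (w, z₀) (0, e i) (0, e j)).det) w₀ →
      ∑ i, ricci G (w₀, z₀) (0, e i) (0, e i) ≤
        ∑ i, (LinearMap.trace ℝ E₁ (aLin G w₀ z₀ (e i)) + ricci (blockW G w₀) z₀ (e i) (e i)))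
    (lps : ∀ (G : E₁ × E₂ → (E₁ × E₂) →L[ℝ] (E₁ × E₂) →L[ℝ] ℝ) (w₀ : E₁) (z₀ : E₂),
      SplitAt G w₀ z₀ → (∀ e : Fin m → E₂, IsOrtho (blockW G w₀ z₀) e →
        0 < ∑ i, (LinearMap.trace ℝ E₁ (aLin G w₀ z₀ (e i)) + ricci (blockW G w₀) z₀ (e i) (e i))) →
      ∀ e : Fin m → E₂, IsOrtho (conf (phi m b G w₀) (blockW G w₀) z₀) e →
      0 < ∑ i, ricci (conf (phi m b G w₀) (blockW G w₀)) z₀ (e i) (e i))
    (g : RMetric (I.prod J) (M × N)) (ho : OrthSlices g) (hR : KPosRicci m g)
    (x : M) (y : N) (d : Module.Basis (Fin m) ℝ E₂)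
    (hmin : IsLocalMin (fun x' => (Matrix.of fun i j =>
      sliceForm g x' y (d i) (d j)).det) x) :
    ∀ e : Fin m → E₂, IsOrtho (inChart J (newForm m b g x) y (extChartAt J y y)) e →
      0 < ∑ i, ricci (inChart J (newForm m b g x) y) (extChartAt J y y) (e i) (e i) := by
  intro e he
  have hs := split_chart g ho x y
  have heq := newForm_chart m b g x y
  have hz : extChartAt J y y ∈ (extChartAt J y).target := mem_of_mem_nhds (target_nhds (I := J) y)
  have hpt : ∀ w ∈ (extChartAt I x).target, ∀ a a' : E₂,
      inChart (I.prod J) g.form (x, y) (w, extChartAt J y y) (0, a) (0, a') =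
        sliceForm g ((extChartAt I x).symm w) y a a' := by
    intro w hw a a'
    rw [inChart_prod_apply g hw hz, dsymm_self, extChartAt_to_inv]
    simp only [map_zero]
    rfl
  have hgoal : ∀ e' : Fin m → E₂,
      IsOrtho (blockW (inChart (I.prod J) g.form (x, y)) (extChartAt I x x) (extChartAt J y y)) e' →
      0 < ∑ i, (LinearMap.trace ℝ E₁ (aLin (inChart (I.prod J) g.form (x, y)) (extChartAt I x x)
        (extChartAt J y y) (e' i)) +
        ricci (blockW (inChart (I.prod J) g.form (x, y)) (extChartAt I x x)) (extChartAt J y y)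
          (e' i) (e' i)) := by
    intro e' he'
    have h1 : 0 < ∑ i, ricci (inChart (I.prod J) g.form (x, y))
        (extChartAt I x x, extChartAt J y y) (0, e' i) (0, e' i) := by
      have := hR (x, y) (fun i => (0, e' i))
      rw [prod_self] at this
      exact this he'
    refine lt_of_lt_of_le h1 (loc _ _ _ hs e' he' ?_)
    have ht : Tendsto (extChartAt I x).symm (𝓝 (extChartAt I x x)) (𝓝 x) := by
      have := continuousAt_extChartAt_symm (I := I) x
      rw [ContinuousAt, extChartAt_to_inv] at this
      exact this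
    have hx := mem_of_mem_nhds (target_nhds (I := I) x)
    filter_upwards [ht.eventually hmin, target_eventually (I := I) x] with w hw hwt
    have e1 : ∀ w' ∈ (extChartAt I x).target,
        (Matrix.of fun i j => inChart (I.prod J) g.form (x, y) (w', extChartAt J y y)
          (0, e' i) (0, e' j)).det =
        (Matrix.of fun i j => d.repr (e' i) j).det ^ 2 *
          (Matrix.of fun i j => sliceForm g ((extChartAt I x).symm w') y (d i) (d j)).det := by
      intro w' hw'
      rw [← gram_change d e' (sliceForm g ((extChartAt I x).symm w') y)]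
      congr 1
      ext i j
      exact hpt w' hw' _ _
    rw [e1 w hwt, e1 _ hx, extChartAt_to_inv]
    exact mul_le_mul_of_nonneg_left hw (sq_nonneg _)
  have hl := lps _ _ _ hs hgoal e (by
    have h1 := heq.self_of_nhds
    rwa [h1] at he)
  have h2 : ∀ v, ricci (inChart J (newForm m b g x) y) (extChartAt J y y) v v =
      ricci (conf (phi m b (inChart (I.prod J) g.form (x, y)) (extChartAt I x x))
      (blockW (inChart (I.prod J) g.form (x, y)) (extChartAt I x x))) (extChartAt J y y)
      v v := by
    intro v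
    have hch : ∀ v w, (fun q => chris (inChart J (newForm m b g x) y) q v w)
        =ᶠ[𝓝 (extChartAt J y y)] (fun q => chris
          (conf (phi m b (inChart (I.prod J) g.form (x, y)) (extChartAt I x x))
      (blockW (inChart (I.prod J) g.form (x, y)) (extChartAt I x x))) q v w) := by
      intro v w
      filter_upwards [heq.eventuallyEq_nhds] with q hq
      simp only [chris, dform₁, dform₂, hq.fderiv_eq, hq.self_of_nhds]
    simp only [ricci, riem]
    refine Finset.sum_congr rfl fun i _ => ?_
    rw [(hch v v).fderiv_eq, (hch _ v).fderiv_eq]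
    have e1 : ∀ a b', chris (inChart J (newForm m b g x) y) (extChartAt J y y) a b' =
        chris (conf (phi m b (inChart (I.prod J) g.form (x, y)) (extChartAt I x x))
      (blockW (inChart (I.prod J) g.form (x, y)) (extChartAt I x x))) (extChartAt J y y)
        a b' := fun a b' => (hch a b').self_of_nhds
    simp only [e1]
  simp only [h2]
  exact hl

end manifold

end Pool.Agent.Helper38.SL
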